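import Pool.Agent.H.MP_ccba21_an.B

set_option autoImplicit false

namespace Pool.Agent.H.MP_ccba21_an

open Set Filter Topology MeasureTheory Metric
open scoped RealInnerProductSpace

lemma inv_ball {ρ : ℝ} (hρ : 0 < ρ) : IntegrableOn (fun y : ℂ => ‖y‖⁻¹) (ball 0 ρ) ∧
    ∫ y in ball (0 : ℂ) ρ, ‖y‖⁻¹ ≤ 7 * ρ := by
  constructor
  · refine integrableOn_ball_of_norm_le_rpow (C := 1) (α := 1) (by simp) (by simp)
      (Eventually.of_forall fun x => ?_) (by fun_prop)
    simp [Real.rpow_neg_one]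
  · have h1 : ∫ y in ball (0 : ℂ) ρ, ‖y‖⁻¹ = ∫ y : ℂ, (Iio ρ).indicator (fun t : ℝ => t⁻¹) ‖y‖ := by
      rw [← integral_indicator measurableSet_ball]
      refine integral_congr_ae (Eventually.of_forall fun y => ?_)
      simp [indicator]
    have h2 : ∫ y in Ioi (0 : ℝ), y ^ (Module.finrank ℝ ℂ - 1) •
        (Iio ρ).indicator (fun t : ℝ => t⁻¹) y = ρ := by
      rw [setIntegral_congr_fun (g := (Iio ρ).indicator fun _ => (1 : ℝ)) measurableSet_Ioi]
      · rw [setIntegral_indicator measurableSet_Iio, Ioi_inter_Iio]; simp [hρ.le]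
      · intro y hy
        have : y ≠ 0 := ne_of_gt hy
        by_cases h : y < ρ <;> simp [indicator, h, this]
    rw [h1, integral_fun_norm_addHaar, h2]
    simp only [Measure.real, Complex.volume_ball, Complex.finrank_real_complex]
    simp only [ENNReal.ofReal_one, one_pow, one_mul, ENNReal.coe_toReal, NNReal.coe_real_pi,
      smul_eq_mul, nsmul_eq_mul, Nat.cast_ofNat]
    nlinarith [Real.pi_lt_d2]

lemma inv_set {ρ : ℝ} (hρ : 0 < ρ) {S : Set ℂ} {x : ℂ} (hS : S ⊆ ball x ρ) :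
    IntegrableOn (fun y : ℂ => ‖x - y‖⁻¹) S ∧ ∫ y in S, ‖x - y‖⁻¹ ≤ 7 * ρ := by
  have mp := Measure.measurePreserving_sub_left (volume : Measure ℂ) x
  have me : MeasurableEmbedding fun y : ℂ => x - y := (MeasurableEquiv.subLeft x).measurableEmbedding
  have e : (fun y : ℂ => x - y) ⁻¹' ball 0 ρ = ball x ρ := by
    ext y; simp [dist_eq_norm, norm_sub_rev]
  have h1 := (mp.integrableOn_comp_preimage me).2 (inv_ball hρ).1
  have h2 := mp.setIntegral_preimage_emb me (fun y : ℂ => ‖y‖⁻¹) (ball 0 ρ)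
  rw [e] at h1 h2
  refine ⟨h1.mono_set hS, le_trans ?_ (h2.trans_le (inv_ball hρ).2)⟩
  exact setIntegral_mono_set h1 (Eventually.of_forall fun y => by positivity) hS.eventuallyLE

lemma log_sq {t D : ℝ} (ht : 0 ≤ t) (h : t ≤ D) (hD : 1 ≤ D) :
    Real.log (1 / t) ^ 2 ≤ 2 * Real.log D ^ 2 + 8 * t⁻¹ := by
  rcases ht.eq_or_lt with rfl | ht
  · simp; positivity
  rw [one_div, Real.log_inv, neg_sq]
  have h0 := Real.log_nonneg hD
  have hi : 0 < t⁻¹ := by positivity
  rcases le_total 1 t with h1 | h1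
  · have := Real.log_le_log ht h
    have := Real.log_nonneg h1
    nlinarith
  · have h2 := Real.log_le_sub_one_of_pos (Real.sqrt_pos.2 hi)
    rw [Real.log_sqrt hi.le, Real.log_inv] at h2
    have h3 := Real.log_nonpos ht.le h1
    have h4 := Real.sq_sqrt hi.le
    nlinarith [Real.sqrt_nonneg t⁻¹]

lemma K_meas : Measurable fun p : ℂ × ℂ => Real.log (1 / ‖p.1 - p.2‖) := by fun_prop

lemma K_L2 {S : Set ℂ} (hm : MeasurableSet S) {x : ℂ} {D : ℝ} (hD : 1 ≤ D) (hS : S ⊆ ball x D) :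
    MemLp (fun y => Real.log (1 / ‖x - y‖)) 2 (volume.restrict S) ∧
    ∫ y in S, Real.log (1 / ‖x - y‖) ^ 2 ≤ 2 * Real.log D ^ 2 * volume.real S + 56 * D := by
  obtain ⟨h1, h2⟩ := inv_set (by linarith) hS
  have hfin : volume S ≠ ⊤ := ((measure_mono hS).trans_lt measure_ball_lt_top).ne
  have h3 : IntegrableOn (fun y => 2 * Real.log D ^ 2 + 8 * ‖x - y‖⁻¹) S :=
    (integrableOn_const hfin).add (h1.const_mul 8)
  have h4 : ∀ᵐ y ∂volume.restrict S,
      Real.log (1 / ‖x - y‖) ^ 2 ≤ 2 * Real.log D ^ 2 + 8 * ‖x - y‖⁻¹ := by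
    filter_upwards [ae_restrict_mem hm] with y hy
    have := hS hy
    rw [mem_ball, dist_comm, dist_eq_norm] at this
    exact log_sq (norm_nonneg _) this.le hD
  have h5 : AEStronglyMeasurable (fun y => Real.log (1 / ‖x - y‖)) (volume.restrict S) :=
    Measurable.aestronglyMeasurable (by fun_prop)
  have h6 : IntegrableOn (fun y => Real.log (1 / ‖x - y‖) ^ 2) S :=
    h3.mono' (h5.pow 2) (h4.mono fun y hy => by rwa [Real.norm_of_nonneg (sq_nonneg _)])
  refine ⟨(memLp_two_iff_integrable_sq h5).2 h6, (integral_mono_ae h6 h3 h4).trans ?_⟩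
  have h7 : Integrable (fun _ : ℂ => 2 * Real.log D ^ 2) (volume.restrict S) :=
    integrableOn_const hfin
  rw [integral_add h7 (h1.const_mul 8), integral_const_mul 8,
    setIntegral_const, smul_eq_mul]
  linarith

def IsEig (Ω : Set ℂ) (τ : ℝ) : Prop :=
  ∃ u : ℂ → ℝ, MemLp u 2 (volume.restrict Ω) ∧ ¬ (u =ᵐ[volume.restrict Ω] 0) ∧
    ∀ᵐ x ∂volume.restrict Ω, ∫ y in Ω, Real.log (1 / ‖x - y‖) * u y = τ * u x

lemma eig_le {S : Set ℂ} (hm : MeasurableSet S) {D τ : ℝ} (hD : 1 ≤ D) (hfin : volume S ≠ ⊤)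
    (hS : ∀ x ∈ S, S ⊆ ball x D) (h : IsEig S τ) :
    τ ^ 2 ≤ volume.real S * (2 * Real.log D ^ 2 * volume.real S + 56 * D) := by
  obtain ⟨u, hu, h0, he⟩ := h
  obtain ⟨M, hM⟩ : ∃ M, M = 2 * Real.log D ^ 2 * volume.real S + 56 * D := ⟨_, rfl⟩
  rw [← hM]
  have hi := hu.integrable_sq
  have hU : 0 < ∫ y in S, u y ^ 2 := by
    refine lt_of_le_of_ne (integral_nonneg fun _ => sq_nonneg _) fun h => h0 ?_
    have := (integral_eq_zero_iff_of_nonneg (fun _ => sq_nonneg _) hi).1 h.symm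
    filter_upwards [this] with y hy
    simpa using hy
  have h1 : ∫ x in S, τ ^ 2 * u x ^ 2 ≤ ∫ _x in S, M * ∫ y in S, u y ^ 2 := by
    refine integral_mono_ae (hi.const_mul _) (integrableOn_const hfin) ?_
    filter_upwards [he, ae_restrict_mem hm] with x hx hx'
    obtain ⟨h2, h3⟩ := K_L2 hm hD (hS x hx')
    rw [← mul_pow, ← hx]
    exact (cs h2 hu).trans (mul_le_mul_of_nonneg_right (h3.trans_eq hM.symm) hU.le)
  rw [integral_const_mul, setIntegral_const, smul_eq_mul, ← mul_assoc] at h1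
  exact le_of_mul_le_mul_right h1 hU

lemma ball_sub {R : ℝ} {x : ℂ} (hx : x ∈ ball (0 : ℂ) R) : ball (0 : ℂ) R ⊆ ball x (2 * R) :=
  ball_subset (by rw [mem_ball, dist_comm] at hx; linarith)

lemma exists_kappa {R : ℝ} (hR : 1 ≤ R) :
    ∃ (κ : ℂ → Lp ℝ 2 (volume.restrict (ball (0 : ℂ) R))) (C : ℝ), Continuous κ ∧
      (∀ x, ‖κ x‖ ≤ C) ∧ ∀ x ∈ ball (0 : ℂ) R,
        κ x =ᵐ[volume.restrict (ball (0 : ℂ) R)] fun y => Real.log (1 / ‖x - y‖) := by
  have hg : MemLp ((ball (0 : ℂ) (2 * R)).indicator fun y => Real.log (1 / ‖0 - y‖)) 2 volume :=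
    (memLp_indicator_iff_restrict measurableSet_ball).2
      (K_L2 measurableSet_ball (by linarith) subset_rfl).1
  let g : C(ℂ, C(ℂ, ℂ)) := ContinuousMap.curry ⟨fun p : ℂ × ℂ => p.1 - p.2, by fun_prop⟩
  have mp : ∀ x, MeasurePreserving (g x) volume volume := fun x =>
    Measure.measurePreserving_sub_left (volume : Measure ℂ) x
  let r := LpToLpRestrictCLM ℂ ℝ ℝ volume 2 (ball (0 : ℂ) R)
  refine ⟨fun x => r (Lp.compMeasurePreserving (g x) (mp x) (hg.toLp _)), ‖r‖ * ‖hg.toLp _‖,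
    r.continuous.comp (continuous_const.compMeasurePreservingLp g.continuous mp (by simp)),
    fun x => (r.le_opNorm _).trans_eq (by rw [Lp.norm_compMeasurePreserving]), fun x hx => ?_⟩
  filter_upwards [LpToLpRestrictCLM_coeFn ℝ (ball (0 : ℂ) R)
      (Lp.compMeasurePreserving (g x) (mp x) (hg.toLp _)),
    ae_restrict_of_ae (Lp.coeFn_compMeasurePreserving (hg.toLp _) (mp x)),
    ae_restrict_of_ae ((mp x).quasiMeasurePreserving.ae hg.coeFn_toLp),
    ae_restrict_mem measurableSet_ball] with y h1 h2 h3 h4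
  have h5 : g x y ∈ ball (0 : ℂ) (2 * R) := by
    have := ball_sub hx h4
    rw [mem_ball, dist_comm, dist_eq_norm] at this
    rwa [mem_ball_zero_iff]
  rw [h1, h2, Function.comp_apply, h3, indicator_of_mem h5, zero_sub, norm_neg]
  rfl

lemma ball_eig {R : ℝ} (hR : 3000 ≤ R) : ∃ m ≤ -(10 * R ^ 2), IsEig (ball 0 R) m := by
  obtain ⟨κ, C, hκ, hC, hK⟩ := exists_kappa (R := R) (by linarith)
  have hfin : IsFiniteMeasure (volume.restrict (ball (0 : ℂ) R)) :=
    isFiniteMeasure_restrict.2 measure_ball_lt_top.ne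
  have hmem := ae_restrict_mem (μ := volume) (measurableSet_ball (x := (0 : ℂ)) (ε := R))
  obtain ⟨T, hT, hTu⟩ := exists_op _ κ hκ hC (isCompact_closedBall 0 R)
    (hmem.mono fun x hx => ball_subset_closedBall hx)
  have hT2 : ∀ u, ∀ᵐ x ∂volume.restrict (ball (0 : ℂ) R),
      T u x = ∫ y in ball (0 : ℂ) R, Real.log (1 / ‖x - y‖) * u y := fun u => by
    filter_upwards [hTu u, hmem] with x h1 h2
    rw [h1, L2.inner_def]
    refine integral_congr_ae ?_
    filter_upwards [hK x h2] with y hy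
    simp [hy, mul_comm]
  have hin : ∀ u v, ⟪T u, v⟫ = ∫ x in ball (0 : ℂ) R, ∫ y in ball (0 : ℂ) R,
      Real.log (1 / ‖x - y‖) * u y * v x := fun u v => by
    rw [L2.inner_def]
    refine integral_congr_ae ?_
    filter_upwards [hT2 u] with x hx
    rw [integral_mul_const, ← hx]; simp [mul_comm]
  have hL := fun x (hx : x ∈ ball (0 : ℂ) R) =>
    K_L2 measurableSet_ball (by linarith : 1 ≤ 2 * R) (ball_sub hx)
  have hs : ∀ u v, ⟪T u, v⟫ = ⟪u, T v⟫ := fun u v => by
    rw [real_inner_comm (T v), hin, hin, integral_integral_swap]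
    · refine integral_congr_ae (Eventually.of_forall fun x =>
        integral_congr_ae (Eventually.of_forall fun y => ?_))
      simp only [norm_sub_rev y x]; ring
    have hm : AEStronglyMeasurable (Function.uncurry fun x y : ℂ =>
        Real.log (1 / ‖x - y‖) * u y * v x)
        ((volume.restrict (ball (0 : ℂ) R)).prod (volume.restrict (ball (0 : ℂ) R))) :=
      (K_meas.aestronglyMeasurable.mul (Lp.aestronglyMeasurable u).comp_snd).mul
        (Lp.aestronglyMeasurable v).comp_fst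
    refine (integrable_prod_iff hm).2 ⟨hmem.mono fun x hx =>
      ((hL x hx).1.integrable_mul (Lp.memLp u)).mul_const (v x), ?_⟩
    obtain ⟨M, hM⟩ : ∃ M, M = (2 * Real.log (2 * R) ^ 2 * volume.real (ball (0 : ℂ) R)
      + 56 * (2 * R)) * ∫ y in ball (0 : ℂ) R, ‖u y‖ ^ 2 := ⟨_, rfl⟩
    refine (((Lp.memLp v).integrable (by simp)).norm.const_mul (M + 1)).mono'
      (by exact hm.norm.integral_prod_right') (hmem.mono fun x hx => ?_)
    simp only [Function.uncurry_apply_pair, norm_mul]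
    rw [integral_mul_const, norm_mul, norm_norm]
    refine mul_le_mul_of_nonneg_right ?_ (norm_nonneg _)
    have h1 := cs (hL x hx).1.norm (Lp.memLp u).norm
    have h2 := (hL x hx).2
    simp only [Real.norm_eq_abs, sq_abs] at h1 hM ⊢
    have h3 := h1.trans (mul_le_mul_of_nonneg_right h2 (integral_nonneg fun _ => sq_nonneg _))
    rw [← hM, ← sq_abs] at h3
    nlinarith
  have h1 : MemLp (fun _ : ℂ => (1 : ℝ)) 2 (volume.restrict (ball (0 : ℂ) R)) := memLp_const 1
  have hvol : volume.real (ball (0 : ℂ) R) = R ^ 2 * Real.pi := by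
    simp [Measure.real, ENNReal.toReal_ofReal (show 0 ≤ R by linarith)]
  have hn : ‖h1.toLp _‖ ^ 2 = R ^ 2 * Real.pi := by
    rw [← real_inner_self_eq_norm_sq, L2.inner_def, ← hvol,
      integral_congr_ae (g := fun _ => 1) (h1.coeFn_toLp.mono fun x hx => by
        beta_reduce; rw [hx]; simp)]
    simp
  have hlog : 8 ≤ Real.log R := by
    rw [Real.le_log_iff_exp_le (by linarith), show (8 : ℝ) = (8 : ℕ) by simp, ← Real.exp_one_pow]
    have := pow_le_pow_left₀ (Real.exp_pos 1).le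
      (show Real.exp 1 ≤ 2.72 by linarith [Real.exp_one_lt_d9]) 8
    norm_num at this ⊢; linarith
  obtain ⟨m, hm, u, hu0, hu⟩ := neg_eig T hT hs (a := 10 * R ^ 2) (by positivity) (w := h1.toLp _)
    (fun h => by 
      rw [h, norm_zero] at hn
      have : 0 < R ^ 2 * Real.pi := by have := Real.pi_pos; positivity
      rw [← hn] at this; norm_num at this) (by
      rw [hn, ← hvol, L2.inner_def, mul_comm, ← smul_eq_mul, ← setIntegral_const]
      refine integral_mono_ae (L2.integrable_inner _ _) (integrable_const _) ?_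
      filter_upwards [hT2 (h1.toLp _), h1.coeFn_toLp, hmem] with x h2 h3 hx
      obtain ⟨h4, h5⟩ := inv_set (by linarith) (ball_sub hx)
      have h6 : ∫ y in ball (0 : ℂ) R, Real.log (1 / ‖x - y‖) * (h1.toLp _) y ≤
          ∫ y in ball (0 : ℂ) R, (-Real.log R + R * ‖x - y‖⁻¹) := by
        refine integral_mono_ae ((hL x hx).1.integrable_mul (Lp.memLp _))
          ((integrable_const _).add (h4.const_mul R)) ?_
        have hne : ∀ᵐ y ∂volume.restrict (ball (0 : ℂ) R), y ≠ x :=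
          ae_restrict_of_ae (Measure.ae_ne volume x)
        filter_upwards [h1.coeFn_toLp, hne] with y hy hy'
        have h7 : 0 < ‖x - y‖ := norm_pos_iff.2 (sub_ne_zero.2 hy'.symm)
        have h8 := Real.log_le_sub_one_of_pos (show 0 < R * ‖x - y‖⁻¹ by positivity)
        rw [Real.log_mul (by linarith) (by positivity)] at h8
        rw [hy, one_div]; linarith
      rw [integral_add (integrable_const _) (h4.const_mul R), integral_const_mul R,
        setIntegral_const, hvol, smul_eq_mul] at h6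
      simp only [h3, h2, RCLike.inner_apply, conj_trivial, one_mul]
      have h9 : 3 * 8 ≤ Real.pi * Real.log R :=
        mul_le_mul Real.pi_gt_three.le hlog (by norm_num) Real.pi_pos.le
      nlinarith [mul_le_mul_of_nonneg_left h5 (show 0 ≤ R by linarith),
        mul_le_mul_of_nonneg_left h9 (sq_nonneg R)])
  refine ⟨m, hm, u, Lp.memLp u, fun h => hu0 (Lp.eq_zero_iff_ae_eq_zero.2 h), ?_⟩
  filter_upwards [hT2 u, Lp.coeFn_smul m u] with x h2 h3
  rw [← h2, hu, h3]; simp

end Pool.Agent.H.MP_ccba21_an
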