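import Mathlib

set_option autoImplicit false

namespace Pool.Agent.H.MP_ccba21_an

open Set Filter Topology Finset

noncomputable def vp {n : ℕ} (z : Fin n → ℂ) : ℝ := ∏ i, ∏ j ∈ Finset.Ioi i, ‖z i - z j‖

noncomputable def fk (E : Set ℂ) (n : ℕ) : Set ℝ :=
  {t | ∃ z : Fin n → ℂ, (∀ i, z i ∈ E) ∧ t = vp z ^ ((2 : ℝ) / (n * (n - 1)))}

lemma vp_nonneg {n : ℕ} (z : Fin n → ℂ) : 0 ≤ vp z :=
  Finset.prod_nonneg fun _ _ => Finset.prod_nonneg fun _ _ => norm_nonneg _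

lemma vp_sq {n : ℕ} (z : Fin n → ℂ) :
    vp z ^ 2 = ∏ i, ∏ j, if j = i then 1 else ‖z j - z i‖ := by
  have := Finset.prod_prod_Ioi_mul_eq_prod_prod_off_diag (fun j i : Fin n => ‖z j - z i‖)
  rw [vp, sq, ← Finset.prod_mul_distrib]
  simp_rw [← Finset.prod_mul_distrib]
  refine Eq.trans (Finset.prod_congr rfl fun i _ => Finset.prod_congr rfl fun j _ => by
    rw [norm_sub_rev (z j)]) (this.trans ?_)
  refine Finset.prod_congr rfl fun i _ => ?_
  rw [Finset.prod_ite, Finset.prod_const_one, one_mul]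
  refine Finset.prod_congr ?_ fun _ _ => rfl
  ext j; simp

lemma vp_del {n : ℕ} (z : Fin (n + 1) → ℂ) (k : Fin (n + 1)) :
    vp (z ∘ k.succAbove) ^ 2 =
      ∏ i, ∏ j, if i = k ∨ j = k then 1 else if j = i then 1 else ‖z j - z i‖ := by
  rw [vp_sq, Fin.prod_univ_succAbove _ k]
  simp only [true_or, if_true, Finset.prod_const_one, one_mul]
  refine Finset.prod_congr rfl fun i _ => ?_
  rw [Fin.prod_univ_succAbove _ k]
  simp [Fin.succAbove_ne]

lemma vp_prod {n : ℕ} (z : Fin (n + 2) → ℂ) :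
    ∏ k : Fin (n + 2), vp (z ∘ k.succAbove) ^ 2 = (vp z ^ 2) ^ n := by
  simp_rw [vp_del]
  rw [vp_sq, Finset.prod_comm, ← Finset.prod_pow]
  refine Finset.prod_congr rfl fun i _ => ?_
  rw [Finset.prod_comm, ← Finset.prod_pow]
  refine Finset.prod_congr rfl fun j _ => ?_
  by_cases h : j = i
  · simp [h]
  · simp only [h, if_false]
    rw [Finset.prod_ite, Finset.prod_const_one, one_mul, Finset.prod_const]
    congr 1
    have : (Finset.univ.filter fun k : Fin (n + 2) => ¬(i = k ∨ j = k)) = ({i, j} : Finset _)ᶜ := by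
      ext k; simp [eq_comm]
    rw [this, Finset.card_compl, Finset.card_pair (Ne.symm h)]
    simp

lemma fk_compact {E : Set ℂ} (hE : IsCompact E) (n : ℕ) : IsCompact (fk E (n + 1)) := by
  have : fk E (n + 1) = (fun z : Fin (n + 1) → ℂ =>
      vp z ^ ((2 : ℝ) / (((n + 1 : ℕ) : ℝ) * (((n + 1 : ℕ) : ℝ) - 1)))) '' Set.pi univ fun _ => E := by
    ext t; simp only [fk, mem_ofPred_eq, Set.mem_image, Set.mem_pi, Set.mem_univ, true_imp_iff]
    exact ⟨fun ⟨z, h1, h2⟩ => ⟨z, h1, h2.symm⟩, fun ⟨z, h1, h2⟩ => ⟨z, h1, h2.symm⟩⟩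
  rw [this]
  refine (isCompact_univ_pi fun _ => hE).image ?_
  refine Continuous.rpow_const (by unfold vp; fun_prop) fun _ => Or.inr ?_
  push_cast
  have : (0 : ℝ) ≤ n := Nat.cast_nonneg n
  apply div_nonneg (by norm_num); nlinarith

lemma fk_step {E : Set ℂ} {n : ℕ} {d t : ℝ} (hd : d ∈ upperBounds (fk E (n + 2)))
    (ht : t ∈ fk E (n + 3)) : t ≤ d := by
  obtain ⟨z, hz, rfl⟩ := ht
  have hn : (0 : ℝ) ≤ n := Nat.cast_nonneg n
  have h1 : ∀ k : Fin (n + 3), vp (z ∘ k.succAbove) ^ ((2 : ℝ) / ((n + 2) * (n + 1))) ≤ d := by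
    intro k
    refine hd ⟨z ∘ k.succAbove, fun i => hz _, ?_⟩
    congr 2; push_cast; ring
  have hd0 : 0 ≤ d := (Real.rpow_nonneg (vp_nonneg _) _).trans (h1 0)
  have h2 : ∀ k : Fin (n + 3), vp (z ∘ k.succAbove) ^ 2 ≤ d ^ ((n + 2) * (n + 1)) := by
    intro k
    have := pow_le_pow_left₀ (Real.rpow_nonneg (vp_nonneg _) _) (h1 k) ((n + 2) * (n + 1))
    rw [← Real.rpow_natCast, ← Real.rpow_mul (vp_nonneg _)] at this
    rw [← Real.rpow_natCast]
    refine le_of_eq_of_le ?_ this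
    congr 1
    push_cast; field_simp
  have h3 : (vp z ^ 2) ^ (n + 1) ≤ (d ^ ((n + 3) * (n + 2))) ^ (n + 1) := by
    rw [← vp_prod]
    refine (Finset.prod_le_prod (fun _ _ => sq_nonneg _) fun k _ => h2 k).trans (le_of_eq ?_)
    rw [Finset.prod_const, Finset.card_univ, Fintype.card_fin, ← pow_mul, ← pow_mul]
    congr 1; ring
  have h4 := le_of_pow_le_pow_left₀ (Nat.succ_ne_zero n) (by positivity) h3
  refine le_of_pow_le_pow_left₀ (n := (n + 3) * (n + 2)) (by positivity) hd0 ?_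
  rw [← Real.rpow_natCast, ← Real.rpow_mul (vp_nonneg _)]
  rw [← Real.rpow_natCast] at h4
  convert h4 using 2
  push_cast
  rw [show (n : ℝ) + 3 - 1 = n + 2 by ring]
  field_simp

lemma sf_ge (m : ℕ) : ((m : ℝ) / 6) ^ (m * (m + 1)) ≤ (m.superFactorial : ℝ) ^ 2 := by
  have h1 : ((m : ℝ) / 3) ^ m ≤ m.factorial := by
    have := Real.pow_div_factorial_le_exp (m : ℝ) (Nat.cast_nonneg m) m
    have h3 : Real.exp m ≤ 3 ^ m := by
      rw [← Real.exp_one_pow]
      exact pow_le_pow_left₀ (Real.exp_pos 1).le (by linarith [Real.exp_one_lt_d9]) m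
    rw [div_le_iff₀ (by positivity)] at this
    rw [div_pow, div_le_iff₀ (by positivity)]
    nlinarith [show (0 : ℝ) < m.factorial by positivity]
  rw [← Nat.prod_range_succ_factorial, sq]
  push_cast
  nth_rewrite 2 [← Finset.prod_range_reflect]
  rw [← Finset.prod_mul_distrib, pow_mul]
  calc (((m : ℝ) / 6) ^ m) ^ (m + 1) = ∏ _i ∈ Finset.range (m + 1), ((m : ℝ) / 6) ^ m := by simp
    _ ≤ _ := by
      refine Finset.prod_le_prod (fun _ _ => by positivity) fun i hi => ?_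
      have hi' : i ≤ m := Nat.lt_succ_iff.1 (Finset.mem_range.1 hi)
      have e1 : (m.choose i : ℝ) * i.factorial * (m - i).factorial = m.factorial := by
        exact_mod_cast Nat.choose_mul_factorial_mul_factorial hi'
      have e2 : (m.choose i : ℝ) ≤ 2 ^ m := by exact_mod_cast Nat.choose_le_two_pow m i
      have e3 : ((m : ℝ) / 6) ^ m * 2 ^ m = ((m : ℝ) / 3) ^ m := by rw [← mul_pow]; congr 1; ring
      rw [show m + 1 - 1 - i = m - i by omega]
      have e4 : (0 : ℝ) < i.factorial * (m - i).factorial := by positivity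
      refine le_of_mul_le_mul_right ?_ (show (0 : ℝ) < 2 ^ m by positivity)
      nlinarith

lemma fk_lower {E : Set ℂ} {L : ℝ} (hL : 0 < L) (hE : ∀ x : ℝ, |x| ≤ L → (x : ℂ) ∈ E) (n : ℕ) :
    ∃ t ∈ fk E (n + 2), L / 3 ≤ t := by
  obtain ⟨m, hm⟩ : ∃ m, m = n + 1 := ⟨_, rfl⟩
  have hm0 : (0 : ℝ) < m := by rw [hm]; positivity
  rw [show n + 2 = m + 1 by omega]
  obtain ⟨h, hh⟩ : ∃ h : ℝ, h = 2 * L / m := ⟨_, rfl⟩
  have h0 : 0 < h := by rw [hh]; positivity
  let z : Fin (m + 1) → ℂ := fun i => ((-L + h * (i : ℕ) : ℝ) : ℂ)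
  refine ⟨_, ⟨z, fun i => hE _ ?_, rfl⟩, ?_⟩
  · have h1 : ((i : ℕ) : ℝ) ≤ m := by exact_mod_cast Nat.lt_succ_iff.1 i.2
    have h2 : h * m = 2 * L := by rw [hh]; field_simp
    have h3 : (0 : ℝ) ≤ (i : ℕ) := Nat.cast_nonneg _
    rw [abs_le]; constructor <;> nlinarith
  · have e1 : vp z = (∏ i : Fin (m + 1), ∏ _j ∈ Finset.Ioi i, h) * m.superFactorial := by
      rw [← Matrix.det_vandermonde_id_eq_superFactorial, Matrix.det_vandermonde,
        ← Finset.prod_mul_distrib, vp]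
      refine Finset.prod_congr rfl fun i _ => ?_
      rw [← Finset.prod_mul_distrib]
      refine Finset.prod_congr rfl fun j hj => ?_
      have : ((i : ℕ) : ℝ) ≤ (j : ℕ) := by exact_mod_cast (Finset.mem_Ioi.1 hj).le
      simp only [z]
      rw [← Complex.ofReal_sub, Complex.norm_real, Real.norm_eq_abs, abs_of_nonpos (by nlinarith)]
      ring
    have e2 : (∏ i : Fin (m + 1), ∏ _j ∈ Finset.Ioi i, h) ^ 2 = h ^ (m * (m + 1)) := by
      have := Finset.prod_prod_Ioi_mul_eq_prod_prod_off_diag (fun _ _ : Fin (m + 1) => h)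
      rw [sq, ← Finset.prod_mul_distrib]
      simp_rw [← Finset.prod_mul_distrib]
      rw [this]
      simp [Finset.card_compl, pow_mul]
    have e3 : (L / 3) ^ (m * (m + 1)) ≤ vp z ^ 2 := by
      rw [e1, mul_pow, e2, show L / 3 = h * (m / 6) by rw [hh]; field_simp; norm_num, mul_pow]
      exact mul_le_mul_of_nonneg_left (sf_ge m) (by positivity)
    refine le_of_pow_le_pow_left₀ (n := m * (m + 1)) (by rw [hm]; positivity)
      (Real.rpow_nonneg (vp_nonneg _) _) ?_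
    rw [← Real.rpow_natCast (vp z ^ _), ← Real.rpow_mul (vp_nonneg _)]
    rw [← Real.rpow_natCast (vp z)] at e3
    refine e3.trans (le_of_eq ?_)
    congr 1
    push_cast
    rw [show (m : ℝ) + 1 - 1 = m by ring]
    field_simp

lemma exists_T {E : Set ℂ} (hE : IsCompact E) {L : ℝ} (hL : 0 < L)
    (hE' : ∀ x : ℝ, |x| ≤ L → (x : ℂ) ∈ E) :
    ∃ (d : ℕ → ℝ) (R : ℝ), (∀ n, 2 ≤ n → IsGreatest (fk E n) (d n)) ∧ Tendsto d atTop (𝓝 R) ∧
      L / 3 ≤ R := by
  have h : ∀ n, ∃ d, IsGreatest (fk E (n + 2)) d := fun n => by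
    obtain ⟨t, ht, -⟩ := fk_lower hL hE' n
    exact (fk_compact hE (n + 1)).exists_isGreatest ⟨t, ht⟩
  choose d hd using h
  have h1 : ∀ n, L / 3 ≤ d n := fun n => by
    obtain ⟨t, ht, h2⟩ := fk_lower hL hE' n
    exact h2.trans ((hd n).2 ht)
  have h2 : Antitone d := antitone_nat_of_succ_le fun n => fk_step (hd n).2 (hd (n + 1)).1
  have h3 := tendsto_atTop_ciInf h2 ⟨L / 3, by rintro _ ⟨n, rfl⟩; exact h1 n⟩
  refine ⟨fun n => d (n - 2), _, fun n hn => ?_, h3.comp (tendsto_sub_atTop_nat 2),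
    ge_of_tendsto' h3 h1⟩
  obtain ⟨k, rfl⟩ := Nat.exists_eq_add_of_le' hn
  exact hd k

end Pool.Agent.H.MP_ccba21_an
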