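import Mathlib

set_option autoImplicit false

namespace Pool.Agent.H.MP_ccba21_an

open Set Filter Topology MeasureTheory Metric
open scoped RealInnerProductSpace

lemma neg_eig {H : Type*} [NormedAddCommGroup H] [InnerProductSpace ℝ H] [CompleteSpace H]
    (T : H →L[ℝ] H) (hT : IsCompactOperator T) (hs : ∀ u v, ⟪T u, v⟫ = ⟪u, T v⟫) {a : ℝ}
    (ha : 0 < a) {w : H} (hw : w ≠ 0) (hw' : ⟪T w, w⟫ ≤ -a * ‖w‖ ^ 2) :
    ∃ m ≤ -a, ∃ u, u ≠ 0 ∧ T u = m • u := by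
  obtain ⟨Q, hQ⟩ : ∃ Q, Q = {t : ℝ | ∃ u : H, ‖u‖ = 1 ∧ t = ⟪T u, u⟫} := ⟨_, rfl⟩
  have hb : BddBelow Q := ⟨-‖T‖, by
    rw [hQ]; rintro _ ⟨u, hu, rfl⟩
    have h1 := abs_real_inner_le_norm (T u) u
    have h2 := T.le_opNorm u
    rw [hu] at h1 h2
    linarith [neg_abs_le ⟪T u, u⟫]⟩
  have hmem : ∀ u : H, u ≠ 0 → ⟪T u, u⟫ / ‖u‖ ^ 2 ∈ Q := fun u hu => by
    have h0 := norm_pos_iff.2 hu
    rw [hQ]
    refine ⟨‖u‖⁻¹ • u, by rw [norm_smul, norm_inv, norm_norm, inv_mul_cancel₀ h0.ne'], ?_⟩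
    rw [map_smul, inner_smul_left, inner_smul_right]
    simp only [conj_trivial]; field_simp
  obtain ⟨m, hm⟩ : ∃ m, m = sInf Q := ⟨_, rfl⟩
  have hlow : ∀ u : H, m * ‖u‖ ^ 2 ≤ ⟪T u, u⟫ := fun u => by
    by_cases hu : u = 0
    · simp [hu]
    · have := csInf_le hb (hmem u hu)
      rwa [← hm, le_div_iff₀ (by have := norm_pos_iff.2 hu; positivity)] at this
  have hma : m ≤ -a :=
    le_of_mul_le_mul_right ((hlow w).trans hw') (by have := norm_pos_iff.2 hw; positivity)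
  refine ⟨m, hma, ?_⟩
  by_contra hne
  have hne' : ¬ Module.End.HasEigenvalue (T : Module.End ℝ H) m := fun h => by
    obtain ⟨u, hu⟩ := h.exists_hasEigenvector
    exact hne ⟨u, hu.2, hu.apply_eq_smul⟩
  obtain ⟨K, hK⟩ := hT.antilipschitz_of_not_hasEigenvalue (by linarith) hne'
  obtain ⟨S, hS⟩ : ∃ S : H →L[ℝ] H, S = T - m • 1 := ⟨_, rfl⟩
  rw [← hS] at hK
  have hSa : ∀ u, S u = T u - m • u := fun u => by simp [hS]
  have hSs : ∀ u v, ⟪S u, v⟫ = ⟪u, S v⟫ := fun u v => by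
    rw [hSa, hSa, inner_sub_left, inner_sub_right, hs, inner_smul_left, inner_smul_right]; simp
  have hSq : ∀ u, ⟪S u, u⟫ = ⟪T u, u⟫ - m * ‖u‖ ^ 2 := fun u => by
    rw [hSa, inner_sub_left, inner_smul_left, real_inner_self_eq_norm_sq]; simp
  obtain ⟨c, hc⟩ : ∃ c, c = ‖S‖ + 1 := ⟨_, rfl⟩
  have hc0 : 0 < c := by rw [hc]; positivity
  have key : ∀ u, ‖S u‖ ^ 2 ≤ c * ⟪S u, u⟫ := fun u => by
    have h1 : 0 ≤ ⟪S (c • u - S u), c • u - S u⟫ := by rw [hSq]; linarith [hlow (c • u - S u)]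
    rw [map_sub, map_smul, inner_sub_left, inner_sub_right, inner_sub_right, inner_smul_left,
      inner_smul_left, inner_smul_right, inner_smul_right, hSs (S u) u,
      real_inner_self_eq_norm_sq] at h1
    simp only [conj_trivial] at h1
    have h2 := real_inner_le_norm (S (S u)) (S u)
    have h3 := S.le_opNorm (S u)
    have h4 : ⟪S (S u), S u⟫ ≤ c * ‖S u‖ ^ 2 := by
      have := mul_le_mul_of_nonneg_right h3 (norm_nonneg (S u))
      rw [hc]; nlinarith [sq_nonneg ‖S u‖]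
    exact le_of_mul_le_mul_left (by nlinarith) hc0
  have hK0 : (0 : ℝ) ≤ K := K.2
  obtain ⟨t, ht, htl⟩ := exists_lt_of_csInf_lt ⟨_, hmem w hw⟩
    (show sInf Q < m + 1 / (K ^ 2 * c + 1) by
      rw [← hm]; exact lt_add_of_pos_right _ (by positivity))
  rw [hQ] at ht
  obtain ⟨u, hu, rfl⟩ := ht
  have h1 := hK.le_mul_dist u 0
  simp only [map_zero, dist_zero_right, hu] at h1
  have h2 := key u
  rw [hSq, hu] at h2
  have h3 : ⟪T u, u⟫ - m * 1 ^ 2 < 1 / (K ^ 2 * c + 1) := by linarith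
  rw [lt_div_iff₀ (by positivity)] at h3
  have h4 : 1 ≤ (K : ℝ) ^ 2 * ‖S u‖ ^ 2 := by nlinarith
  have h5 := hlow u
  rw [hu] at h5
  nlinarith [mul_le_mul_of_nonneg_left h2 (sq_nonneg (K : ℝ))]

lemma exists_op (μ : Measure ℂ) [IsFiniteMeasure μ] (κ : ℂ → Lp ℝ 2 μ) (hκ : Continuous κ)
    {C : ℝ} (hC : ∀ x, ‖κ x‖ ≤ C) {Z : Set ℂ} (hZ : IsCompact Z) (hμ : ∀ᵐ x ∂μ, x ∈ Z) :
    ∃ T : Lp ℝ 2 μ →L[ℝ] Lp ℝ 2 μ, IsCompactOperator T ∧
      ∀ u, T u =ᵐ[μ] fun x => ⟪κ x, u⟫ := by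
  have hb : ∀ (u : Lp ℝ 2 μ) x, ‖⟪κ x, u⟫‖ ≤ C * ‖u‖ := fun u x =>
    (norm_inner_le_norm _ _).trans (mul_le_mul_of_nonneg_right (hC x) (norm_nonneg _))
  have hC0 : 0 ≤ C := (norm_nonneg _).trans (hC 0)
  let Φ0 : Lp ℝ 2 μ →ₗ[ℝ] (BoundedContinuousFunction ℂ ℝ) :=
    { toFun := fun u => BoundedContinuousFunction.ofNormedAddCommGroup (fun x => ⟪κ x, u⟫)
        (by fun_prop) (C * ‖u‖) (hb u)
      map_add' := fun u v => by ext x; simp [inner_add_right]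
      map_smul' := fun c u => by ext x; simp [inner_smul_right] }
  let Φ := Φ0.mkContinuous C fun u =>
    BoundedContinuousFunction.norm_ofNormedAddCommGroup_le _ (by positivity) (hb u)
  let T := (BoundedContinuousFunction.toLp (E := ℝ) 2 μ ℝ).comp Φ
  have hT : ∀ u, T u =ᵐ[μ] fun x => ⟪κ x, u⟫ := fun u =>
    BoundedContinuousFunction.coeFn_toLp 2 μ ℝ (Φ u)
  refine ⟨T, ?_, hT⟩
  refine isClosed_setOfPred_isCompactOperator.closure_subset (Metric.mem_closure_iff.2 fun ε hε => ?_)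
  obtain ⟨D, hD⟩ : ∃ D : ℝ, D = (measureUnivNNReal μ : ℝ) ^ (2 : ENNReal).toReal⁻¹ := ⟨_, rfl⟩
  have hD0 : 0 ≤ D := by rw [hD]; positivity
  obtain ⟨δ, hδ⟩ : ∃ δ : ℝ, δ = ε / (D + 1) := ⟨_, rfl⟩
  have hδ0 : 0 < δ := by rw [hδ]; positivity
  obtain ⟨t, ht, hcov⟩ := Metric.totallyBounded_iff.1 (hZ.image hκ).totallyBounded δ hδ0
  let V := Submodule.span ℝ t
  have : FiniteDimensional ℝ V := FiniteDimensional.span_of_finite ℝ ht
  have : ProperSpace V := FiniteDimensional.proper_real V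
  refine ⟨(T.comp V.subtypeL).comp V.orthogonalProjection,
    (isCompactOperator_of_locallyCompactSpace_dom V.orthogonalProjection).clm_comp
      (T.comp V.subtypeL), ?_⟩
  rw [dist_eq_norm]
  refine lt_of_le_of_lt (ContinuousLinearMap.opNorm_le_bound _ (M := D * δ) (by positivity)
    fun u => ?_) (by rw [hδ, mul_div_assoc', div_lt_iff₀ (by positivity)]; nlinarith)
  have e : (T - (T.comp V.subtypeL).comp V.orthogonalProjection) u = T (u - V.starProjection u) := by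
    rw [map_sub]; rfl
  rw [e, mul_assoc, hD]
  refine Lp.norm_le_of_ae_bound (by positivity) ?_
  filter_upwards [hT (u - V.starProjection u), hμ] with x h1 h2
  obtain ⟨y, hy, hxy⟩ := Set.mem_iUnion₂.1 (hcov ⟨x, h2, rfl⟩)
  have h3 : ⟪y, u - V.starProjection u⟫ = 0 :=
    Submodule.inner_right_of_mem_orthogonal (Submodule.subset_span hy)
      (V.sub_starProjection_mem_orthogonal u)
  have h4 : ‖u - V.starProjection u‖ ≤ ‖u‖ := by
    rw [← Submodule.starProjection_orthogonal_val]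
    exact Submodule.norm_starProjection_apply_le _ u
  rw [h1, ← sub_zero ⟪κ x, _⟫, ← h3, ← inner_sub_left]
  rw [mem_ball, dist_eq_norm] at hxy
  exact (norm_inner_le_norm _ _).trans (mul_le_mul hxy.le h4 (norm_nonneg _) hδ0.le)

lemma cs {μ : Measure ℂ} {f g : ℂ → ℝ} (hf : MemLp f 2 μ) (hg : MemLp g 2 μ) :
    (∫ y, f y * g y ∂μ) ^ 2 ≤ (∫ y, f y ^ 2 ∂μ) * ∫ y, g y ^ 2 ∂μ := by
  have e : ∀ {f g : ℂ → ℝ} (hf : MemLp f 2 μ) (hg : MemLp g 2 μ),
      ⟪hf.toLp f, hg.toLp g⟫ = ∫ y, f y * g y ∂μ := fun hf hg => by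
    rw [L2.inner_def]
    refine integral_congr_ae ?_
    filter_upwards [hf.coeFn_toLp, hg.coeFn_toLp] with x h1 h2
    simp [h1, h2, mul_comm]
  have := real_inner_mul_inner_self_le (hf.toLp f) (hg.toLp g)
  rw [e, e, e] at this
  simpa only [sq] using this

end Pool.Agent.H.MP_ccba21_an
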